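import Pool.Agent.H74.G.R_seed8.R773.FC.Fin
import Pool.Agent.H74.G.R_seed8.Y504.CO.Gen

/-!
# Toral extensions: definitions
-/

set_option autoImplicit false
set_option linter.unusedSectionVars false

open scoped Manifold ContDiff Topology
open Filter Set Metric

universe u v w

namespace Pool.Agent.R773.TE

open Pool.Agent.H718R2.G Pool.Agent.TH80.OMS Pool.Agent.Y504.CO
open Pool.Agent.H922R3.CL (IsHypLin)

/-- In the coordinates `Θ : B × K → N`, `τ : K → W / Λ` the map `F` is
`(b, y) ↦ (f b, A y + φ (b, y))`. -/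
def IsToral {N B K : Type*} [TopologicalSpace K] {W : Type} [NormedAddCommGroup W]
    [NormedSpace ℝ W] {Λ : AddSubgroup W} (A : W ≃L[ℝ] W) (τ : K ≃ₜ W ⧸ Λ) (Θ : B × K → N)
    (F : N → N) (f : B → B) (φ : B × (W ⧸ Λ) → W) : Prop :=
  ∀ (b : B) (z : W), F (Θ (b, τ.symm (QuotientAddGroup.mk z))) =
    Θ (f b, τ.symm (QuotientAddGroup.mk (A z + φ (b, QuotientAddGroup.mk z))))

/-- `φ` is `ε`-Lipschitz along the fibres. -/
def FibLip {B : Type v} {W : Type} [NormedAddCommGroup W] {Λ : AddSubgroup W} (ε : ℝ)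
    (φ : B × (W ⧸ Λ) → W) : Prop :=
  ∀ (b : B) (z z' : W), ‖φ (b, QuotientAddGroup.mk z) - φ (b, QuotientAddGroup.mk z')‖ ≤
    ε * ‖z - z'‖

/-- `Λ` is a lattice of `W` (with bounded fundamental domain) and `A` induces a hyperbolic
automorphism of the torus `W / Λ`. -/
structure IsHypAut {W : Type} [NormedAddCommGroup W] [NormedSpace ℝ W] (A : W ≃L[ℝ] W)
    (Λ : AddSubgroup W) : Prop where
  lattice : ∃ C : ℝ, ∀ z : W, ∃ u ∈ Λ, ‖z - u‖ ≤ C
  hyp : IsHypLin A
  inv : ∀ u, u ∈ Λ ↔ A u ∈ Λ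

/-- Diffeomorphisms from `B × K` to `N`. -/
abbrev ProdDiff (n d k : ℕ) (N : Type u) [TopologicalSpace N] [ChartedSpace (V n) N]
    (B : Type v) [TopologicalSpace B] [ChartedSpace (V d) B]
    (K : Type w) [TopologicalSpace K] [ChartedSpace (V k) K] :=
  Diffeomorph ((𝓡 d).prod (𝓡 k)) (𝓡 n) (B × K) N ∞

/-- The nonwandering set of `g` is the closure of the set of periodic points of `g`, all periodic
points of `g` are hyperbolic, and for every `m ≥ 1` finitely many points satisfy `g^m b = b`. -/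
def PerHyp {d : ℕ} {B : Type v} [TopologicalSpace B] [ChartedSpace (V d) B] {r : ℕ∞}
    (g : DiffM d B r) : Prop :=
  Omega g = closure (Per g) ∧ (∀ b ∈ Per g, IsHyperbolicPer d g b) ∧
    ∀ m : ℕ, 1 ≤ m → {b | g^[m] b = b}.Finite

/-- `g` is in `U₃` and its nonwandering set is finite: `Ω(g)` is finite, consists of hyperbolic
periodic points, and there are no cycles. -/
def FinU3 {d : ℕ} {B : Type v} [TopologicalSpace B] [ChartedSpace (V d) B] {r : ℕ∞}
    (g : DiffM d B r) : Prop :=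
  FiniteNoCycle g ∧ ∀ b ∈ Omega g, IsHyperbolicPer d g b

/-- `φ` is continuous and, in the coordinates `Θ : B × K → N` and for some homeomorphism
`τ : K → W / Λ`, the map `F` is `(b, y) ↦ (f b, A y + φ (b, y))`. -/
def IsExt {n d k : ℕ} {N : Type u} [TopologicalSpace N] [ChartedSpace (V n) N]
    {B : Type v} [TopologicalSpace B] [ChartedSpace (V d) B]
    {K : Type w} [TopologicalSpace K] [ChartedSpace (V k) K] {r : ℕ∞}
    {W : Type} [NormedAddCommGroup W] [NormedSpace ℝ W] {Λ : AddSubgroup W} (A : W ≃L[ℝ] W)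
    (Θ : ProdDiff n d k N B K) (F : DiffM n N r) (f : DiffM d B r) (φ : B × (W ⧸ Λ) → W) : Prop :=
  Continuous φ ∧ ∃ τ : K ≃ₜ W ⧸ Λ, IsToral A τ Θ F f φ

/-- The projection of `N` to `B`. -/
noncomputable def proj {n d k : ℕ} {N : Type u} [TopologicalSpace N] [ChartedSpace (V n) N]
    {B : Type v} [TopologicalSpace B] [ChartedSpace (V d) B]
    {K : Type w} [TopologicalSpace K] [ChartedSpace (V k) K]
    (Θ : ProdDiff n d k N B K) (x : N) : B :=
  (Θ.symm x).1

/-- `Ω(F)` is the closure of the set of periodic points of `F`, and it is the preimage of `Ω(f)`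
under `π`. -/
def OmegaPre {N : Type u} [TopologicalSpace N] {B : Type v} [TopologicalSpace B] (π : N → B)
    (F : N → N) (f : B → B) : Prop :=
  Omega F = closure (Per F) ∧ Omega F = π ⁻¹' Omega f

/-- For every `m ≥ 1`, the maps `f` and `g` have the same number of points of period `m`. -/
def SameCount {B : Type v} (f g : B → B) : Prop :=
  ∀ m : ℕ, 1 ≤ m → {b | g^[m] b = b}.ncard = {b | f^[m] b = b}.ncard

/-- The conclusions for fibre maps which are Lipschitz-close to affine maps. -/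
def LipConcl {n d k : ℕ} {N : Type u} [TopologicalSpace N] [ChartedSpace (V n) N]
    {B : Type v} [TopologicalSpace B] [ChartedSpace (V d) B]
    {K : Type w} [TopologicalSpace K] [ChartedSpace (V k) K] {r : ℕ∞}
    (Θ : ProdDiff n d k N B K) (F : DiffM n N r) (f : DiffM d B r) (U : Set (DiffM d B r)) :
    Prop :=
  OmegaPre (proj Θ) F f ∧ (∀ g ∈ U, SameCount f g) ∧
    (IsTotallyDisconnected (Omega f) → ∀ g ∈ U, OmegaConj f g) ∧
    ((Rec f \ Per f).Countable → ∀ g ∈ U, FinU3 g)

end Pool.Agent.R773.TE
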