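import Pool.Agent.H74.G.R_seed8.R773.TE.Lift
import Pool.Agent.H74.G.R_seed8.R773.TE.LA
import Pool.Agent.H74.G.R_seed8.Y504.CO.Gen

/-!
# Hyperbolicity of the periodic points of the base
-/

set_option autoImplicit false
set_option linter.unusedSectionVars false

open scoped Manifold ContDiff Topology
open Filter Set Metric

universe u v w

namespace Pool.Agent.R773.TE

open Pool.Agent.H718R2.G Pool.Agent.TH80.OMS Pool.Agent.Y504.CO

variable {n d k : ℕ} {N : Type u} [TopologicalSpace N] [T2Space N] [ChartedSpace (V n) N]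
  [IsManifold (𝓡 n) ∞ N]
  {B : Type v} [TopologicalSpace B] [T2Space B] [ChartedSpace (V d) B] [IsManifold (𝓡 d) ∞ B]
  {K : Type w} [TopologicalSpace K] [ChartedSpace (V k) K] [IsManifold (𝓡 k) ∞ K] {r : ℕ∞}

theorem iter_fst {F : N → N} {f : B → B} (Θ : Diffeomorph ((𝓡 d).prod (𝓡 k)) (𝓡 n) (B × K) N ∞)
    (hF : ∀ q : B × K, (Θ.symm (F (Θ q))).1 = f q.1) (i : ℕ) (q : B × K) :
    (Θ.symm (F^[i] (Θ q))).1 = f^[i] q.1 := by
  induction i with
  | zero => simp
  | succ i ih =>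
    rw [Function.iterate_succ_apply', Function.iterate_succ_apply', ← ih]
    have h := hF (Θ.symm (F^[i] (Θ q)))
    rw [Θ.apply_symm_apply] at h
    exact h

theorem base_hyp_at (hr : 1 ≤ r) {F : DiffM n N r} {f : DiffM d B r}
    (Θ : Diffeomorph ((𝓡 d).prod (𝓡 k)) (𝓡 n) (B × K) N ∞)
    (hF : ∀ q : B × K, (Θ.symm (F (Θ q))).1 = f q.1) {b : B} {y : K} {m : ℕ}
    (hy : F^[m] (Θ (b, y)) = Θ (b, y)) (hb : f^[m] b = b)
    {ψ : OpenPartialHomeomorph N (V n)} (hψ : ψ ∈ IsManifold.maximalAtlas (𝓡 n) ∞ N)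
    (hpψ : Θ (b, y) ∈ ψ.source) {D : V n →L[ℝ] V n}
    (hD : HasFDerivAt (fun v => ψ (F^[m] (ψ.symm v))) D (ψ (Θ (b, y))))
    (hμ : ∀ μ : ℂ, ((LinearMap.charpoly (D : V n →ₗ[ℝ] V n)).map (algebraMap ℝ ℂ)).IsRoot μ →
      ‖μ‖ ≠ 1)
    {χ : OpenPartialHomeomorph B (V d)} (hχ : χ ∈ IsManifold.maximalAtlas (𝓡 d) ∞ B)
    (hbχ : b ∈ χ.source) :
    ∃ D' : V d →L[ℝ] V d, HasFDerivAt (fun v => χ (f^[m] (χ.symm v))) D' (χ b) ∧
      ∀ μ : ℂ, ((LinearMap.charpoly (D' : V d →ₗ[ℝ] V d)).map (algebraMap ℝ ℂ)).IsRoot μ →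
        ‖μ‖ ≠ 1 := by
  have h1 : ContDiffAt ℝ 1 (fun v => χ (f^[m] (χ.symm v))) (χ b) :=
    Pool.Agent.Y863.CO.cda hr f m hχ hbχ (by rw [hb]; exact hbχ)
  have hD' := (h1.differentiableAt one_ne_zero).hasFDerivAt
  set D' := fderiv ℝ (fun v => χ (f^[m] (χ.symm v))) (χ b) with hD'def
  set η := chartAt (V k) y with hη
  have mη : η ∈ IsManifold.maximalAtlas (𝓡 k) ∞ K := IsManifold.chart_mem_maximalAtlas _
  have sη : y ∈ η.source := mem_chart_source _ _
  have e1 : (Θ.symm (Θ (b, y))).1 = b := by rw [Θ.symm_apply_apply]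
  have e2 : (Θ.symm (Θ (b, y))).2 = y := by rw [Θ.symm_apply_apply]
  have hQs : ContDiffAt ℝ ∞ (fun v : V n => χ (Θ.symm (ψ.symm v)).1) (ψ (Θ (b, y))) :=
    (in_smooth Θ hψ hχ mη hpψ (by rw [e1]; exact hbχ) (by rw [e2]; exact sη)).fst
  have hQ := (hQs.differentiableAt (by simp)).hasFDerivAt
  set Q := fderiv ℝ (fun v : V n => χ (Θ.symm (ψ.symm v)).1) (ψ (Θ (b, y))) with hQdef
  have hss : ContDiffAt ℝ ∞ (fun u : V d => ψ (Θ (χ.symm u, y))) (χ b) := by
    have h2 := out_smooth Θ hψ hχ mη (b := b) (y := y) hbχ sη hpψ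
    have h3 : ContDiffAt ℝ ∞ (fun u : V d => (u, η y)) (χ b) :=
      (contDiff_id.prodMk contDiff_const).contDiffAt
    have h4 := ContDiffAt.comp (χ b) (g := fun q : V d × V k => ψ (Θ (χ.symm q.1, η.symm q.2)))
      (f := fun u : V d => (u, η y)) h2 h3
    have h5 : ((fun q : V d × V k => ψ (Θ (χ.symm q.1, η.symm q.2))) ∘ fun u : V d => (u, η y)) =
        fun u : V d => ψ (Θ (χ.symm u, y)) := by
      funext u
      simp only [Function.comp, η.left_inv sη]
    rwa [h5] at h4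
  have hs := (hss.differentiableAt (by simp)).hasFDerivAt
  set s := fderiv ℝ (fun u : V d => ψ (Θ (χ.symm u, y))) (χ b) with hsdef
  have hsb : (fun u : V d => ψ (Θ (χ.symm u, y))) (χ b) = ψ (Θ (b, y)) := by
    simp only [χ.left_inv hbχ]
  have hsurj : Function.Surjective Q := by
    have hcomp : HasFDerivAt ((fun v : V n => χ (Θ.symm (ψ.symm v)).1) ∘
        fun u : V d => ψ (Θ (χ.symm u, y))) (Q.comp s) (χ b) := by
      refine HasFDerivAt.comp (χ b) ?_ hs
      simp only [χ.left_inv hbχ]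
      exact hQ
    have hid : ((fun v : V n => χ (Θ.symm (ψ.symm v)).1) ∘
        fun u : V d => ψ (Θ (χ.symm u, y))) =ᶠ[𝓝 (χ b)] id := by
      have c1 : ContinuousAt (fun u : V d => Θ (χ.symm u, y)) (χ b) := by
        refine Θ.continuous.continuousAt.comp ?_
        exact (χ.continuousAt_symm (χ.map_source hbχ)).prodMk continuousAt_const
      have c2 : ∀ᶠ u in 𝓝 (χ b), Θ (χ.symm u, y) ∈ ψ.source := by
        refine c1.eventually (ψ.open_source.mem_nhds ?_)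
        simp only [χ.left_inv hbχ]
        exact hpψ
      filter_upwards [c2, χ.open_target.mem_nhds (χ.map_source hbχ)] with u g1 g2
      simp only [Function.comp, ψ.left_inv g1, Θ.symm_apply_apply, χ.right_inv g2, id]
    have huniq := hcomp.unique ((hasFDerivAt_id (χ b)).congr_of_eventuallyEq hid)
    intro w
    refine ⟨s w, ?_⟩
    have := congrArg (fun A : V d →L[ℝ] V d => A w) huniq
    exact this
  have hconj : Q.comp D = D'.comp Q := by
    have a1 : HasFDerivAt ((fun v : V n => χ (Θ.symm (ψ.symm v)).1) ∘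
        fun v => ψ (F^[m] (ψ.symm v))) (Q.comp D) (ψ (Θ (b, y))) := by
      refine HasFDerivAt.comp (ψ (Θ (b, y))) ?_ hD
      simp only [ψ.left_inv hpψ, hy]
      exact hQ
    have a2 : HasFDerivAt ((fun v => χ (f^[m] (χ.symm v))) ∘
        fun v : V n => χ (Θ.symm (ψ.symm v)).1) (D'.comp Q) (ψ (Θ (b, y))) := by
      refine HasFDerivAt.comp (ψ (Θ (b, y))) ?_ hQ
      simp only [ψ.left_inv hpψ, e1]
      exact hD'
    refine a1.unique (a2.congr_of_eventuallyEq ?_)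
    have c0 : ContinuousAt (fun v => F^[m] (ψ.symm v)) (ψ (Θ (b, y))) :=
      (F.continuous.iterate m).continuousAt.comp (ψ.continuousAt_symm (ψ.map_source hpψ))
    have c1 : ∀ᶠ v in 𝓝 (ψ (Θ (b, y))), F^[m] (ψ.symm v) ∈ ψ.source := by
      refine c0.eventually (ψ.open_source.mem_nhds ?_)
      simp only [ψ.left_inv hpψ, hy]
      exact hpψ
    have c2 : ContinuousAt (fun v => (Θ.symm (ψ.symm v)).1) (ψ (Θ (b, y))) :=
      continuous_fst.continuousAt.comp (Θ.symm.continuous.continuousAt.comp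
        (ψ.continuousAt_symm (ψ.map_source hpψ)))
    have c3 : ∀ᶠ v in 𝓝 (ψ (Θ (b, y))), (Θ.symm (ψ.symm v)).1 ∈ χ.source := by
      refine c2.eventually (χ.open_source.mem_nhds ?_)
      simp only [ψ.left_inv hpψ, e1]
      exact hbχ
    filter_upwards [c1, c3] with v g1 g2
    have g3 := iter_fst (F := F) (f := f) Θ hF m (Θ.symm (ψ.symm v))
    rw [Θ.apply_symm_apply] at g3
    simp only [Function.comp, ψ.left_inv g1, χ.left_inv g2, g3]
  refine ⟨D', hD', fun μ hμ' => hμ μ ?_⟩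
  refine root_of_factor (D : V n →ₗ[ℝ] V n) (D' : V d →ₗ[ℝ] V d) (Q : V n →ₗ[ℝ] V d) hsurj ?_ μ hμ'
  intro v
  have := congrArg (fun A : V n →L[ℝ] V d => A v) hconj
  exact this

/-- Periodic points of the base are hyperbolic if over each of them, for every period, there is a
periodic point with this period, and the periodic points of `F` are hyperbolic. -/
theorem base_hyp (hr : 1 ≤ r) {F : DiffM n N r} {f : DiffM d B r}
    (Θ : Diffeomorph ((𝓡 d).prod (𝓡 k)) (𝓡 n) (B × K) N ∞)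
    (hF : ∀ q : B × K, (Θ.symm (F (Θ q))).1 = f q.1)
    (hper : ∀ (b : B) (m : ℕ), 1 ≤ m → f^[m] b = b → ∃ y : K, F^[m] (Θ (b, y)) = Θ (b, y))
    (hH : ∀ p ∈ Per F, IsHyperbolicPer n F p) : ∀ b ∈ Per f, IsHyperbolicPer d f b := by
  intro b hb
  refine ⟨hb, fun m hm hmb χ hχ hbχ => ?_⟩
  obtain ⟨y, hy⟩ := hper b m hm hmb
  set ψ := chartAt (V n) (Θ (b, y)) with hψ
  have mψ : ψ ∈ IsManifold.maximalAtlas (𝓡 n) ∞ N := IsManifold.chart_mem_maximalAtlas _
  have sψ : Θ (b, y) ∈ ψ.source := mem_chart_source _ _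
  obtain ⟨D, hD, hμ⟩ := (hH _ ⟨m, hm, hy⟩).2 m hm hy ψ mψ sψ
  exact base_hyp_at hr Θ hF hy hmb mψ sψ hD hμ hχ hbχ

end Pool.Agent.R773.TE
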