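import Pool.Agent.H74.G.R_seed8.TH382.QC.Top2
import Pool.Agent.H74.G.R_seed8.W683.SC.Loc
import Pool.Agent.H74.G.R_seed8.W917.SC.COMP

/-!
# Lifting perturbations of the base to a product manifold
-/

set_option autoImplicit false
set_option linter.unusedSectionVars false

open scoped Manifold ContDiff Topology
open Filter Set Metric

universe u v w

namespace Pool.Agent.R773.TE

open Pool.Agent.H718R2.G Pool.Agent.W564.SC Pool.Agent.TH382.QC

section Jet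

variable {E E' : Type} [NormedAddCommGroup E] [NormedSpace ℝ E] [NormedAddCommGroup E']
  [NormedSpace ℝ E']

theorem jet_add' {k : ℕ} {a c : ℕ → E → E'} {y : ℕ → E} {b e : E → E'} {y₀ : E}
    (h : JetConv k a y b y₀) (h' : JetConv k c y e y₀) :
    JetConv k (fun m => a m + c m) y (b + e) y₀ where
  pt := h.pt
  smooth := (h.smooth.and h'.smooth).mono fun m hm => hm.1.add hm.2
  smooth₀ := h.smooth₀.add h'.smooth₀
  conv j hj := by
    have hjk : ((j : ℕ) : WithTop ℕ∞) ≤ (k : WithTop ℕ∞) := by exact_mod_cast hj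
    have h1 := (h.conv j hj).add (h'.conv j hj)
    rw [← iteratedFDeriv_add_apply (h.smooth₀.of_le hjk) (h'.smooth₀.of_le hjk)] at h1
    refine h1.congr' ?_
    filter_upwards [h.smooth, h'.smooth] with m h2 h3
    rw [iteratedFDeriv_add_apply (h2.of_le hjk) (h3.of_le hjk)]

/-- products with the identity -/
theorem jet_prod {E₂ : Type} [NormedAddCommGroup E₂] [NormedSpace ℝ E₂] {k : ℕ}
    {c : ℕ → E → E'} {u : ℕ → E} {c₀ : E → E'} {u₀ : E} {v : ℕ → E₂} {v₀ : E₂}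
    (h : JetConv k c u c₀ u₀) (hv : Tendsto v atTop (𝓝 v₀)) :
    JetConv k (fun m (p : E × E₂) => (c m p.1, p.2)) (fun m => (u m, v m))
      (fun p => (c₀ p.1, p.2)) (u₀, v₀) := by
  have hcomp := Pool.Agent.W917.SC.comp
  have hp : Tendsto (fun m => (u m, v m)) atTop (𝓝 (u₀, v₀)) := h.pt.prodMk_nhds hv
  have h1 : JetConv k (fun _ => (Prod.fst : E × E₂ → E)) (fun m => (u m, v m)) Prod.fst
      (u₀, v₀) := Pool.Agent.W683.SC.jet_const hp contDiffAt_fst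
  have h2 := hcomp (E × E₂) E E' k _ _ _ _ _ _ h1 h
  have h2' : Tendsto (fun m => c m (u m)) atTop (𝓝 (c₀ u₀)) := by
    have h3 := h.conv 0 (Nat.zero_le _)
    have h4 := (continuousMultilinearCurryFin0 ℝ E E').continuous.tendsto
      (iteratedFDeriv ℝ 0 c₀ u₀)
    have h5 := h4.comp h3
    simpa [iteratedFDeriv_zero_eq_comp, Function.comp_def] using h5
  have h3 : JetConv k (fun _ => fun e : E' => (e, (0 : E₂))) (fun m => (c m ∘ Prod.fst) (u m, v m))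
      (fun e : E' => (e, (0 : E₂))) ((c₀ ∘ Prod.fst) (u₀, v₀)) :=
    Pool.Agent.W683.SC.jet_const h2' (contDiff_id.prodMk contDiff_const).contDiffAt
  have h4 := hcomp (E × E₂) E' (E' × E₂) k _ _ _ _ _ _ h2 h3
  have h5 : JetConv k (fun _ => fun p : E × E₂ => ((0 : E'), p.2)) (fun m => (u m, v m))
      (fun p : E × E₂ => ((0 : E'), p.2)) (u₀, v₀) :=
    Pool.Agent.W683.SC.jet_const hp (contDiff_const.prodMk contDiff_snd).contDiffAt
  have h6 := jet_add' h4 h5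
  refine jet_congr h6 (Eventually.of_forall fun m => rfl)
    (Eventually.of_forall fun m => Eventually.of_forall fun p => ?_)
    (Eventually.of_forall fun p => ?_)
  · simp [Pi.add_apply, Function.comp]
  · simp [Pi.add_apply, Function.comp]

end Jet

variable {n d k : ℕ} {N : Type u} [TopologicalSpace N] [ChartedSpace (V n) N]
  [IsManifold (𝓡 n) ∞ N]
  {B : Type v} [TopologicalSpace B] [ChartedSpace (V d) B] [IsManifold (𝓡 d) ∞ B]
  {K : Type w} [TopologicalSpace K] [ChartedSpace (V k) K] [IsManifold (𝓡 k) ∞ K] {r : ℕ∞}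

/-- `γ × id` on a manifold diffeomorphic to `B × K`. -/
noncomputable def liftD (Θ : Diffeomorph ((𝓡 d).prod (𝓡 k)) (𝓡 n) (B × K) N ∞) (γ : DiffM d B r) :
    DiffM n N r where
  toEquiv := (Θ.symm.toEquiv.trans (γ.toEquiv.prodCongr (Equiv.refl K))).trans Θ.toEquiv
  contMDiff_toFun := by
    have h1 : ContMDiff (𝓡 n) ((𝓡 d).prod (𝓡 k)) r Θ.symm :=
      Θ.symm.contMDiff.of_le (by exact_mod_cast le_top)
    have h2 : ContMDiff ((𝓡 d).prod (𝓡 k)) (𝓡 n) r Θ := Θ.contMDiff.of_le (by exact_mod_cast le_top)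
    have h3 : ContMDiff ((𝓡 d).prod (𝓡 k)) ((𝓡 d).prod (𝓡 k)) r
        (fun p : B × K => (γ p.1, p.2)) :=
      (γ.contMDiff.comp contMDiff_fst).prodMk contMDiff_snd
    exact h2.comp (h3.comp h1)
  contMDiff_invFun := by
    have h1 : ContMDiff (𝓡 n) ((𝓡 d).prod (𝓡 k)) r Θ.symm :=
      Θ.symm.contMDiff.of_le (by exact_mod_cast le_top)
    have h2 : ContMDiff ((𝓡 d).prod (𝓡 k)) (𝓡 n) r Θ := Θ.contMDiff.of_le (by exact_mod_cast le_top)
    have h3 : ContMDiff ((𝓡 d).prod (𝓡 k)) ((𝓡 d).prod (𝓡 k)) r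
        (fun p : B × K => (γ.symm p.1, p.2)) :=
      (γ.symm.contMDiff.comp contMDiff_fst).prodMk contMDiff_snd
    exact h2.comp (h3.comp h1)

theorem liftD_apply (Θ : Diffeomorph ((𝓡 d).prod (𝓡 k)) (𝓡 n) (B × K) N ∞) (γ : DiffM d B r)
    (p : B × K) : liftD Θ γ (Θ p) = Θ (γ p.1, p.2) := by
  show Θ (γ (Θ.symm (Θ p)).1, (Θ.symm (Θ p)).2) = _
  rw [Θ.symm_apply_apply]

theorem liftD_apply' (Θ : Diffeomorph ((𝓡 d).prod (𝓡 k)) (𝓡 n) (B × K) N ∞) (γ : DiffM d B r)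
    (x : N) : liftD Θ γ x = Θ (γ (Θ.symm x).1, (Θ.symm x).2) := rfl

/-- the charts of the factors, seen from `N` -/
theorem in_smooth (Θ : Diffeomorph ((𝓡 d).prod (𝓡 k)) (𝓡 n) (B × K) N ∞)
    {φ : OpenPartialHomeomorph N (V n)} (hφ : φ ∈ IsManifold.maximalAtlas (𝓡 n) ∞ N)
    {χ : OpenPartialHomeomorph B (V d)} (hχ : χ ∈ IsManifold.maximalAtlas (𝓡 d) ∞ B)
    {η : OpenPartialHomeomorph K (V k)} (hη : η ∈ IsManifold.maximalAtlas (𝓡 k) ∞ K)
    {x : N} (hx : x ∈ φ.source) (h1 : (Θ.symm x).1 ∈ χ.source) (h2 : (Θ.symm x).2 ∈ η.source) :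
    ContDiffAt ℝ ∞ (fun v : V n => (χ (Θ.symm (φ.symm v)).1, η (Θ.symm (φ.symm v)).2)) (φ x) := by
  have hsymm : ContMDiffAt (𝓡 n) (𝓡 n) ∞ φ.symm (φ x) :=
    contMDiffAt_symm_of_mem_maximalAtlas hφ (φ.map_source hx)
  have hΘ : ContMDiffAt (𝓡 n) ((𝓡 d).prod (𝓡 k)) ∞ (fun v => Θ.symm (φ.symm v)) (φ x) :=
    ContMDiffAt.comp (φ x) (g := Θ.symm) (f := φ.symm) Θ.symm.contMDiff.contMDiffAt hsymm
  have ha : ContMDiffAt (𝓡 n) (𝓡 d) ∞ (fun v => (Θ.symm (φ.symm v)).1) (φ x) :=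
    ContMDiffAt.comp (φ x) (g := Prod.fst) contMDiffAt_fst hΘ
  have hb : ContMDiffAt (𝓡 n) (𝓡 k) ∞ (fun v => (Θ.symm (φ.symm v)).2) (φ x) :=
    ContMDiffAt.comp (φ x) (g := Prod.snd) contMDiffAt_snd hΘ
  have ha' : ContMDiffAt (𝓡 n) (𝓡 d) ∞ (fun v => χ (Θ.symm (φ.symm v)).1) (φ x) := by
    refine ContMDiffAt.comp (φ x) (g := χ) (f := fun v => (Θ.symm (φ.symm v)).1) ?_ ha
    simp only [φ.left_inv hx]
    exact contMDiffAt_of_mem_maximalAtlas hχ h1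
  have hb' : ContMDiffAt (𝓡 n) (𝓡 k) ∞ (fun v => η (Θ.symm (φ.symm v)).2) (φ x) := by
    refine ContMDiffAt.comp (φ x) (g := η) (f := fun v => (Θ.symm (φ.symm v)).2) ?_ hb
    simp only [φ.left_inv hx]
    exact contMDiffAt_of_mem_maximalAtlas hη h2
  exact (contMDiffAt_iff_contDiffAt.1 ha').prodMk (contMDiffAt_iff_contDiffAt.1 hb')

theorem out_smooth (Θ : Diffeomorph ((𝓡 d).prod (𝓡 k)) (𝓡 n) (B × K) N ∞)
    {ψ : OpenPartialHomeomorph N (V n)} (hψ : ψ ∈ IsManifold.maximalAtlas (𝓡 n) ∞ N)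
    {χ : OpenPartialHomeomorph B (V d)} (hχ : χ ∈ IsManifold.maximalAtlas (𝓡 d) ∞ B)
    {η : OpenPartialHomeomorph K (V k)} (hη : η ∈ IsManifold.maximalAtlas (𝓡 k) ∞ K)
    {b : B} {y : K} (h1 : b ∈ χ.source) (h2 : y ∈ η.source) (hw : Θ (b, y) ∈ ψ.source) :
    ContDiffAt ℝ ∞ (fun q : V d × V k => ψ (Θ (χ.symm q.1, η.symm q.2))) (χ b, η y) := by
  have hs1 : ContMDiffAt ((𝓡 d).prod (𝓡 k)) (𝓡 d) ∞ (fun q : V d × V k => χ.symm q.1)
      (χ b, η y) :=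
    ContMDiffAt.comp (χ b, η y) (g := χ.symm) (f := Prod.fst)
      (contMDiffAt_symm_of_mem_maximalAtlas hχ (χ.map_source h1)) contMDiffAt_fst
  have hs2 : ContMDiffAt ((𝓡 d).prod (𝓡 k)) (𝓡 k) ∞ (fun q : V d × V k => η.symm q.2)
      (χ b, η y) :=
    ContMDiffAt.comp (χ b, η y) (g := η.symm) (f := Prod.snd)
      (contMDiffAt_symm_of_mem_maximalAtlas hη (η.map_source h2)) contMDiffAt_snd
  have hΘ : ContMDiffAt ((𝓡 d).prod (𝓡 k)) (𝓡 n) ∞
      (fun q : V d × V k => Θ (χ.symm q.1, η.symm q.2)) (χ b, η y) :=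
    ContMDiffAt.comp (χ b, η y) (g := Θ) (f := fun q : V d × V k => (χ.symm q.1, η.symm q.2))
      Θ.contMDiff.contMDiffAt (hs1.prodMk hs2)
  have hG : ContMDiffAt ((𝓡 d).prod (𝓡 k)) (𝓡 n) ∞
      (fun q : V d × V k => ψ (Θ (χ.symm q.1, η.symm q.2))) (χ b, η y) := by
    refine ContMDiffAt.comp (χ b, η y) (g := ψ)
      (f := fun q : V d × V k => Θ (χ.symm q.1, η.symm q.2)) ?_ hΘ
    simp only [χ.left_inv h1, η.left_inv h2]
    exact contMDiffAt_of_mem_maximalAtlas hψ hw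
  rw [← contMDiffAt_iff_contDiffAt, modelWithCornersSelf_prod, ← chartedSpaceSelf_prod]
  exact hG

theorem cv_lift (Θ : Diffeomorph ((𝓡 d).prod (𝓡 k)) (𝓡 n) (B × K) N ∞) {γ : ℕ → DiffM d B r}
    {γ₀ : DiffM d B r} (h : Cv γ γ₀) : Cv (fun m => liftD Θ (γ m)) (liftD Θ γ₀) := by
  intro kk hk φ ψ hφ hψ x x₀ hx hx₀ hw
  have hcomp := Pool.Agent.W917.SC.comp
  set b₀ := (Θ.symm x₀).1 with hb₀
  set y₀ := (Θ.symm x₀).2 with hy₀
  have hp : Tendsto (fun m => Θ.symm (x m)) atTop (𝓝 (Θ.symm x₀)) :=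
    (Θ.symm.continuous.tendsto _).comp hx
  have hpb : Tendsto (fun m => (Θ.symm (x m)).1) atTop (𝓝 b₀) :=
    (continuous_fst.tendsto _).comp hp
  have hpy : Tendsto (fun m => (Θ.symm (x m)).2) atTop (𝓝 y₀) :=
    (continuous_snd.tendsto _).comp hp
  set χ := chartAt (V d) b₀ with hχ
  set χ' := chartAt (V d) (γ₀ b₀) with hχ'
  set η := chartAt (V k) y₀ with hη
  have mχ : χ ∈ IsManifold.maximalAtlas (𝓡 d) ∞ B := IsManifold.chart_mem_maximalAtlas _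
  have mχ' : χ' ∈ IsManifold.maximalAtlas (𝓡 d) ∞ B := IsManifold.chart_mem_maximalAtlas _
  have mη : η ∈ IsManifold.maximalAtlas (𝓡 k) ∞ K := IsManifold.chart_mem_maximalAtlas _
  have sχ : b₀ ∈ χ.source := mem_chart_source _ _
  have sχ' : γ₀ b₀ ∈ χ'.source := mem_chart_source _ _
  have sη : y₀ ∈ η.source := mem_chart_source _ _
  obtain ⟨p1, j1⟩ := h kk hk χ χ' mχ mχ' (fun m => (Θ.symm (x m)).1) b₀ hpb sχ sχ'
  have hΘx : Θ (γ₀ b₀, y₀) = liftD Θ γ₀ x₀ := (liftD_apply' Θ γ₀ x₀).symm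
  have hpt : Tendsto (fun m => liftD Θ (γ m) (x m)) atTop (𝓝 (liftD Θ γ₀ x₀)) := by
    rw [← hΘx]
    exact (Θ.continuous.tendsto _).comp (p1.prodMk_nhds hpy)
  refine ⟨hpt, ?_⟩
  have hin := in_smooth Θ hφ mχ mη hx₀ sχ sη
  have hout := out_smooth Θ hψ mχ' mη (b := γ₀ b₀) (y := y₀) sχ' sη (by rw [hΘx]; exact hw)
  have hxt : Tendsto (fun m => φ (x m)) atTop (𝓝 (φ x₀)) := (φ.continuousAt hx₀).tendsto.comp hx
  have J1 : JetConv kk (fun _ => fun v : V n => (χ (Θ.symm (φ.symm v)).1, η (Θ.symm (φ.symm v)).2))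
      (fun m => φ (x m)) (fun v : V n => (χ (Θ.symm (φ.symm v)).1, η (Θ.symm (φ.symm v)).2))
      (φ x₀) := Pool.Agent.W683.SC.jet_const hxt (hin.of_le (by exact_mod_cast le_top))
  have hηt : Tendsto (fun m => η (Θ.symm (x m)).2) atTop (𝓝 (η y₀)) :=
    (η.continuousAt sη).tendsto.comp hpy
  have J2 := jet_prod j1 hηt
  have hxφ : ∀ᶠ m in atTop, x m ∈ φ.source := hx.eventually (φ.open_source.mem_nhds hx₀)
  have e0 : (fun v : V n => (χ (Θ.symm (φ.symm v)).1, η (Θ.symm (φ.symm v)).2)) (φ x₀) =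
      (χ b₀, η y₀) := by simp only [φ.left_inv hx₀, hb₀, hy₀]
  have J2' : JetConv kk (fun m (p : V d × V k) => ((χ' ∘ γ m ∘ χ.symm) p.1, p.2))
      (fun m => (fun v : V n => (χ (Θ.symm (φ.symm v)).1, η (Θ.symm (φ.symm v)).2)) (φ (x m)))
      (fun p : V d × V k => ((χ' ∘ γ₀ ∘ χ.symm) p.1, p.2))
      ((fun v : V n => (χ (Θ.symm (φ.symm v)).1, η (Θ.symm (φ.symm v)).2)) (φ x₀)) := by
    rw [e0]
    refine jet_congr J2 ?_ (Eventually.of_forall fun m => EventuallyEq.rfl) EventuallyEq.rfl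
    filter_upwards [hxφ] with m hm
    simp only [φ.left_inv hm]
  have J3 := hcomp (V n) (V d × V k) (V d × V k) kk _ _ _ _ _ _ J1 J2'
  have hsχ : ∀ᶠ m in atTop, (Θ.symm (x m)).1 ∈ χ.source :=
    hpb.eventually (χ.open_source.mem_nhds sχ)
  have hsη : ∀ᶠ m in atTop, (Θ.symm (x m)).2 ∈ η.source :=
    hpy.eventually (η.open_source.mem_nhds sη)
  have hsχ' : ∀ᶠ m in atTop, γ m (Θ.symm (x m)).1 ∈ χ'.source :=
    p1.eventually (χ'.open_source.mem_nhds sχ')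
  have e1 : (((fun p : V d × V k => ((χ' ∘ γ₀ ∘ χ.symm) p.1, p.2)) ∘
      fun v : V n => (χ (Θ.symm (φ.symm v)).1, η (Θ.symm (φ.symm v)).2)) (φ x₀)) =
      (χ' (γ₀ b₀), η y₀) := by
    simp only [Function.comp, φ.left_inv hx₀]
    rw [← hb₀, ← hy₀, χ.left_inv sχ]
  have hJ4t : Tendsto (fun m => (((fun p : V d × V k => ((χ' ∘ γ m ∘ χ.symm) p.1, p.2)) ∘
      fun v : V n => (χ (Θ.symm (φ.symm v)).1, η (Θ.symm (φ.symm v)).2)) (φ (x m)))) atTop
      (𝓝 (χ' (γ₀ b₀), η y₀)) := by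
    have h1 : Tendsto (fun m => (χ' (γ m (Θ.symm (x m)).1), η (Θ.symm (x m)).2)) atTop
        (𝓝 (χ' (γ₀ b₀), η y₀)) := ((χ'.continuousAt sχ').tendsto.comp p1).prodMk_nhds hηt
    refine h1.congr' ?_
    filter_upwards [hxφ, hsχ] with m hm hm'
    simp only [Function.comp, φ.left_inv hm, χ.left_inv hm']
  have J4 : JetConv kk (fun _ => fun q : V d × V k => ψ (Θ (χ'.symm q.1, η.symm q.2)))
      (fun m => (((fun p : V d × V k => ((χ' ∘ γ m ∘ χ.symm) p.1, p.2)) ∘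
        fun v : V n => (χ (Θ.symm (φ.symm v)).1, η (Θ.symm (φ.symm v)).2)) (φ (x m))))
      (fun q : V d × V k => ψ (Θ (χ'.symm q.1, η.symm q.2)))
      (((fun p : V d × V k => ((χ' ∘ γ₀ ∘ χ.symm) p.1, p.2)) ∘
        fun v : V n => (χ (Θ.symm (φ.symm v)).1, η (Θ.symm (φ.symm v)).2)) (φ x₀)) := by
    rw [e1]
    exact Pool.Agent.W683.SC.jet_const hJ4t (hout.of_le (by exact_mod_cast le_top))
  have J5 := hcomp (V n) (V d × V k) (V n) kk _ _ _ _ _ _ J3 J4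
  have key : ∀ (γ' : DiffM d B r) (x' : N), x' ∈ φ.source → (Θ.symm x').1 ∈ χ.source →
      (Θ.symm x').2 ∈ η.source → γ' (Θ.symm x').1 ∈ χ'.source →
      (fun q : V d × V k => ψ (Θ (χ'.symm q.1, η.symm q.2))) ∘
        ((fun p : V d × V k => ((χ' ∘ γ' ∘ χ.symm) p.1, p.2)) ∘
        fun v : V n => (χ (Θ.symm (φ.symm v)).1, η (Θ.symm (φ.symm v)).2)) =ᶠ[𝓝 (φ x')]
      ψ ∘ (liftD Θ γ') ∘ φ.symm := by
    intro γ' x' h1 h2 h3 h4
    have hc0 : ContinuousAt (fun v => Θ.symm (φ.symm v)) (φ x') :=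
      Θ.symm.continuous.continuousAt.comp (φ.continuousAt_symm (φ.map_source h1))
    have hc1 : ContinuousAt (fun v => (Θ.symm (φ.symm v)).1) (φ x') :=
      continuous_fst.continuousAt.comp hc0
    have hc2 : ContinuousAt (fun v => (Θ.symm (φ.symm v)).2) (φ x') :=
      continuous_snd.continuousAt.comp hc0
    have hc3 : ContinuousAt (fun v => γ' (Θ.symm (φ.symm v)).1) (φ x') :=
      γ'.continuous.continuousAt.comp hc1
    have g1 : ∀ᶠ v in 𝓝 (φ x'), (Θ.symm (φ.symm v)).1 ∈ χ.source := by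
      refine hc1.eventually (χ.open_source.mem_nhds ?_)
      simp only [φ.left_inv h1]
      exact h2
    have g2 : ∀ᶠ v in 𝓝 (φ x'), (Θ.symm (φ.symm v)).2 ∈ η.source := by
      refine hc2.eventually (η.open_source.mem_nhds ?_)
      simp only [φ.left_inv h1]
      exact h3
    have g3 : ∀ᶠ v in 𝓝 (φ x'), γ' (Θ.symm (φ.symm v)).1 ∈ χ'.source := by
      refine hc3.eventually (χ'.open_source.mem_nhds ?_)
      simp only [φ.left_inv h1]
      exact h4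
    filter_upwards [g1, g2, g3] with v q1 q2 q3
    simp only [Function.comp, χ.left_inv q1, χ'.left_inv q3, η.left_inv q2]
    rfl
  refine jet_congr J5 (Eventually.of_forall fun m => rfl) ?_ (key γ₀ x₀ hx₀ sχ sη sχ')
  filter_upwards [hxφ, hsχ, hsη, hsχ'] with m h1 h2 h3 h4
  exact key (γ m) (x m) h1 h2 h3 h4

end Pool.Agent.R773.TE
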